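import Pool.Agent.Helper96.ME.Defs

/-!
# Module SPA: basic facts on spherical functions
-/

set_option autoImplicit false

namespace Pool.Agent.Helper96.ME

open scoped MatrixGroups

section grp

variable {R : Type} [CommRing R]

theorem spa_ext {g h : SL(2, R)} (h00 : g 0 0 = h 0 0) (h01 : g 0 1 = h 0 1)
    (h10 : g 1 0 = h 1 0) (h11 : g 1 1 = h 1 1) : g = h := by
  apply Subtype.ext
  ext i j
  fin_cases i <;> fin_cases j
  · exact h00
  · exact h01
  · exact h10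
  · exact h11

theorem spa_mul00 (g h : SL(2, R)) : (g * h) 0 0 = g 0 0 * h 0 0 + g 0 1 * h 1 0 := by
  simp [Matrix.SpecialLinearGroup.coe_mul, Matrix.mul_apply, Fin.sum_univ_two]

theorem spa_mul01 (g h : SL(2, R)) : (g * h) 0 1 = g 0 0 * h 0 1 + g 0 1 * h 1 1 := by
  simp [Matrix.SpecialLinearGroup.coe_mul, Matrix.mul_apply, Fin.sum_univ_two]

theorem spa_mul10 (g h : SL(2, R)) : (g * h) 1 0 = g 1 0 * h 0 0 + g 1 1 * h 1 0 := by
  simp [Matrix.SpecialLinearGroup.coe_mul, Matrix.mul_apply, Fin.sum_univ_two]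

theorem spa_mul11 (g h : SL(2, R)) : (g * h) 1 1 = g 1 0 * h 0 1 + g 1 1 * h 1 1 := by
  simp [Matrix.SpecialLinearGroup.coe_mul, Matrix.mul_apply, Fin.sum_univ_two]

theorem spa_sg00 (u : Rˣ) (g : SL(2, R)) : (sg u g) 0 0 = g 0 0 := rfl
theorem spa_sg01 (u : Rˣ) (g : SL(2, R)) : (sg u g) 0 1 = (u : R) * g 0 1 := rfl
theorem spa_sg10 (u : Rˣ) (g : SL(2, R)) : (sg u g) 1 0 = ((u⁻¹ : Rˣ) : R) * g 1 0 := rfl
theorem spa_sg11 (u : Rˣ) (g : SL(2, R)) : (sg u g) 1 1 = g 1 1 := rfl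

theorem spa_dg00 (u : Rˣ) : (dg u : SL(2, R)) 0 0 = (u : R) := rfl
theorem spa_dg01 (u : Rˣ) : (dg u : SL(2, R)) 0 1 = 0 := rfl
theorem spa_dg10 (u : Rˣ) : (dg u : SL(2, R)) 1 0 = 0 := rfl
theorem spa_dg11 (u : Rˣ) : (dg u : SL(2, R)) 1 1 = ((u⁻¹ : Rˣ) : R) := rfl

theorem spa_sg_mul (u : Rˣ) (g h : SL(2, R)) : sg u (g * h) = sg u g * sg u h := by
  have e : (u : R) * ((u⁻¹ : Rˣ) : R) = 1 := u.mul_inv
  apply spa_ext
  · simp only [spa_mul00, spa_sg00, spa_sg01, spa_sg10]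
    linear_combination (-(g 0 1 * h 1 0)) * e
  · simp only [spa_mul01, spa_sg00, spa_sg01, spa_sg11]
    ring
  · simp only [spa_mul10, spa_sg00, spa_sg10, spa_sg11]
    ring
  · simp only [spa_mul11, spa_sg01, spa_sg10, spa_sg11]
    linear_combination (-(g 1 0 * h 0 1)) * e

theorem spa_sg_sg (u v : Rˣ) (g : SL(2, R)) : sg u (sg v g) = sg (u * v) g := by
  apply spa_ext
  · rfl
  · simp only [spa_sg01, Units.val_mul]; ring
  · simp only [spa_sg10, mul_inv, Units.val_mul]; ring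
  · rfl

theorem spa_sg_one (g : SL(2, R)) : sg 1 g = g := by
  apply spa_ext
  · rfl
  · simp only [spa_sg01, Units.val_one]; ring
  · simp only [spa_sg10, inv_one, Units.val_one]; ring
  · rfl

theorem spa_sg_dg (u v : Rˣ) : sg u (dg v : SL(2, R)) = dg v := by
  apply spa_ext
  · rfl
  · simp only [spa_sg01, spa_dg01, mul_zero]
  · simp only [spa_sg10, spa_dg10, mul_zero]
  · rfl

theorem spa_dg_mul (u v : Rˣ) : (dg (u * v) : SL(2, R)) = dg u * dg v := by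
  apply spa_ext
  · simp only [spa_mul00, spa_dg00, spa_dg01, spa_dg10, Units.val_mul]; ring
  · simp only [spa_mul01, spa_dg00, spa_dg01, spa_dg11]; ring
  · simp only [spa_mul10, spa_dg00, spa_dg10, spa_dg11]; ring
  · simp only [spa_mul11, spa_dg01, spa_dg10, spa_dg11, mul_inv, Units.val_mul]; ring

theorem spa_dg_one : (dg 1 : SL(2, R)) = 1 := by
  apply spa_ext
  · simp [spa_dg00]
  · simp [spa_dg01]
  · simp [spa_dg10]
  · simp [spa_dg11]

theorem spa_dg_inv (u : Rˣ) : (dg u : SL(2, R))⁻¹ = dg u⁻¹ := by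
  apply inv_eq_of_mul_eq_one_left
  rw [← spa_dg_mul, inv_mul_cancel, spa_dg_one]

theorem spa_sg_sq (u : Rˣ) (y : SL(2, R)) : sg (u * u) y = dg u * y * dg u⁻¹ := by
  have e : (u : R) * ((u⁻¹ : Rˣ) : R) = 1 := u.mul_inv
  apply spa_ext
  · simp only [spa_mul00, spa_mul01, spa_sg00, spa_dg00, spa_dg01, spa_dg10]
    linear_combination (-(y 0 0)) * e
  · simp only [spa_mul00, spa_mul01, spa_sg01, spa_dg00, spa_dg01, spa_dg11, Units.val_mul, inv_inv]
    ring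
  · simp only [spa_mul10, spa_mul11, spa_sg10, spa_dg00, spa_dg10, spa_dg11, mul_inv, Units.val_mul]
    ring
  · simp only [spa_mul10, spa_mul11, spa_sg11, spa_dg01, spa_dg10, spa_dg11, inv_inv]
    linear_combination (-(y 1 1)) * e

/-- `sg u` as a permutation -/
def spaEquiv (u : Rˣ) : SL(2, R) ≃ SL(2, R) where
  toFun := sg u
  invFun := sg u⁻¹
  left_inv g := by rw [spa_sg_sg, inv_mul_cancel, spa_sg_one]
  right_inv g := by rw [spa_sg_sg, mul_inv_cancel, spa_sg_one]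

theorem spa_finite [Finite R] : Finite SL(2, R) :=
  Finite.of_injective (fun g : SL(2, R) => (g : Matrix (Fin 2) (Fin 2) R)) Subtype.val_injective

end grp

section sums

variable {R : Type} [CommRing R] [Fintype Rˣ] [Fintype SL(2, R)]
  {V : Type} [AddCommGroup V] [Module ℝ V]

theorem spa_card_pos : (0 : ℝ) < Nat.card Rˣ := by
  exact_mod_cast Nat.card_pos

theorem spa_rinv {φ : SL(2, R) → ℝ} (hφ : Sph R φ) (t : Rˣ) (g : SL(2, R)) :
    φ (g * dg t) = φ g := by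
  have h1 := hφ.sph g (dg t)
  simp only [spa_sg_dg] at h1
  rw [finsum_eq_sum_of_fintype, Finset.sum_const, Finset.card_univ, ← Nat.card_eq_fintype_card,
    nsmul_eq_mul] at h1
  have h2 : φ (dg t) = 1 := by
    have := hφ.left t 1
    rw [mul_one, hφ.one] at this
    exact this
  rw [h2, mul_one] at h1
  exact mul_left_cancel₀ (ne_of_gt spa_card_pos) h1

theorem spa_sph {φ : SL(2, R) → ℝ} (hφ : Sph R φ) (g h : SL(2, R)) :
    ∑ u : Rˣ, φ (g * sg u h) = (Nat.card Rˣ : ℝ) * (φ g * φ h) := by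
  rw [← finsum_eq_sum_of_fintype]
  exact hφ.sph g h

theorem spa_sum_inv (f : SL(2, R) → V) : ∑ x, f x⁻¹ = ∑ x, f x :=
  Equiv.sum_comp (Equiv.inv SL(2, R)) f

theorem spa_sum_mulr (f : SL(2, R) → V) (y : SL(2, R)) : ∑ x, f (x * y) = ∑ x, f x :=
  Equiv.sum_comp (Equiv.mulRight y) f

theorem spa_sum_sg (f : SL(2, R) → V) (u : Rˣ) : ∑ x, f (sg u x) = ∑ x, f x :=
  Equiv.sum_comp (spaEquiv u) f

theorem spa_YS_iff (φ : SL(2, R) → ℝ) (w : SL(2, R) → V) :
    YS φ w ↔ ∀ y : SL(2, R), ∑ x : SL(2, R), φ x • w (x * y) = sq φ • w y := by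
  unfold YS
  simp only [finsum_eq_sum_of_fintype]

theorem spa_sq (φ : SL(2, R) → ℝ) : sq φ = ∑ x : SL(2, R), φ x ^ 2 := by
  unfold sq
  rw [finsum_eq_sum_of_fintype]

theorem spa_YS_self {φ : SL(2, R) → ℝ} (hφ : Sph R φ) : YS φ φ := by
  rw [spa_YS_iff]
  intro y
  simp only [smul_eq_mul]
  have h1 : ∑ x : SL(2, R), φ x * φ (x * y) = ∑ x : SL(2, R), φ x * φ (y⁻¹ * x) := by
    rw [← spa_sum_inv (fun x => φ x * φ (x * y))]
    apply Finset.sum_congr rfl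
    intro x _
    rw [hφ.inv x, ← hφ.inv (x⁻¹ * y), mul_inv_rev, inv_inv]
  have h2 : ∀ u : Rˣ, ∑ x : SL(2, R), φ x * φ (y⁻¹ * sg u x) =
      ∑ x : SL(2, R), φ x * φ (y⁻¹ * x) := by
    intro u
    rw [← spa_sum_sg (fun x => φ x * φ (y⁻¹ * x)) u]
    apply Finset.sum_congr rfl
    intro x _
    rw [hφ.sig]
  have h3 : ∑ u : Rˣ, ∑ x : SL(2, R), φ x * φ (y⁻¹ * sg u x) =
      (Nat.card Rˣ : ℝ) * ∑ x : SL(2, R), φ x * φ (y⁻¹ * x) := by
    rw [Finset.sum_congr rfl (fun u _ => h2 u), Finset.sum_const, Finset.card_univ,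
      ← Nat.card_eq_fintype_card, nsmul_eq_mul]
  rw [Finset.sum_comm] at h3
  have h4 : ∑ x : SL(2, R), ∑ u : Rˣ, φ x * φ (y⁻¹ * sg u x) =
      (Nat.card Rˣ : ℝ) * (sq φ * φ y) := by
    rw [spa_sq, Finset.sum_mul, Finset.mul_sum]
    apply Finset.sum_congr rfl
    intro x _
    rw [← Finset.mul_sum, spa_sph hφ, hφ.inv]
    ring
  rw [h1]
  rw [h4] at h3
  exact (mul_left_cancel₀ (ne_of_gt spa_card_pos) h3).symm

theorem spa_one_le {φ : SL(2, R) → ℝ} (hφ : Sph R φ) : 1 ≤ sq φ := by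
  rw [spa_sq]
  have h := Finset.single_le_sum (f := fun x => φ x ^ 2) (s := Finset.univ)
    (fun x _ => sq_nonneg (φ x)) (Finset.mem_univ (1 : SL(2, R)))
  simp only [hφ.one, one_pow] at h
  exact h

theorem spa_abs_le {φ : SL(2, R) → ℝ} (hφ : Sph R φ) (y : SL(2, R)) : |φ y| ≤ 1 := by
  have h1 := (spa_YS_iff φ φ).1 (spa_YS_self hφ) y
  simp only [smul_eq_mul] at h1
  have h2 : |∑ x : SL(2, R), φ x * φ (x * y)| ≤ sq φ := by
    refine (Finset.abs_sum_le_sum_abs _ _).trans ?_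
    have h3 : ∀ x : SL(2, R), |φ x * φ (x * y)| ≤ (φ x ^ 2 + φ (x * y) ^ 2) / 2 := by
      intro x
      rw [abs_mul]
      nlinarith [sq_nonneg (|φ x| - |φ (x * y)|), sq_abs (φ x), sq_abs (φ (x * y))]
    refine (Finset.sum_le_sum (fun x _ => h3 x)).trans ?_
    rw [← Finset.sum_div, Finset.sum_add_distrib,
      spa_sum_mulr (fun x => φ x ^ 2) y, ← spa_sq]
    linarith
  rw [h1, abs_mul] at h2
  have h3 := spa_one_le hφ
  rw [abs_of_pos (by linarith)] at h2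
  have h4 : sq φ * |φ y| ≤ sq φ * 1 := by rwa [mul_one]
  exact le_of_mul_le_mul_left h4 (by linarith)

theorem spa_le_card {φ : SL(2, R) → ℝ} (hφ : Sph R φ) : sq φ ≤ (Nat.card SL(2, R) : ℝ) := by
  rw [spa_sq]
  have h : ∑ x : SL(2, R), φ x ^ 2 ≤ ∑ x : SL(2, R), (1 : ℝ) := by
    apply Finset.sum_le_sum
    intro x _
    have := spa_abs_le hφ x
    rw [← sq_abs]
    nlinarith [abs_nonneg (φ x)]
  refine h.trans ?_
  rw [Finset.sum_const, Finset.card_univ, nsmul_eq_mul, mul_one, Nat.card_eq_fintype_card]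

theorem spa_YS_right {φ : SL(2, R) → ℝ} {w : SL(2, R) → V} (hw : YS φ w) (h : SL(2, R)) :
    YS φ (fun y => w (y * h)) := by
  rw [spa_YS_iff] at hw ⊢
  intro y
  have := hw (y * h)
  rw [← this]
  apply Finset.sum_congr rfl
  intro x _
  rw [mul_assoc]

theorem spa_YS_sg {φ : SL(2, R) → ℝ} (hφ : Sph R φ) {w : SL(2, R) → V} (hw : YS φ w) (u : Rˣ) :
    YS φ (fun y => w (sg u y)) := by
  rw [spa_YS_iff] at hw ⊢
  intro y
  have := hw (sg u y)
  rw [← this, ← spa_sum_sg (fun x => φ x • w (x * sg u y)) u]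
  apply Finset.sum_congr rfl
  intro x _
  rw [spa_sg_mul, hφ.sig]

theorem spa_sq_ne {φ : SL(2, R) → ℝ} (hφ : Sph R φ) : sq φ ≠ 0 := by
  have := spa_one_le hφ
  intro h
  rw [h] at this
  linarith

theorem spa_left {φ : SL(2, R) → ℝ} (hφ : Sph R φ) {w : SL(2, R) → V} (hw : YS φ w) (u : Rˣ)
    (y : SL(2, R)) : w (dg u * y) = w y := by
  rw [spa_YS_iff] at hw
  have h1 := hw (dg u * y)
  have h2 := hw y
  have h3 : ∑ x : SL(2, R), φ x • w (x * (dg u * y)) = ∑ x : SL(2, R), φ x • w (x * y) := by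
    rw [← spa_sum_mulr (fun x => φ x • w (x * y)) (dg u)]
    apply Finset.sum_congr rfl
    intro x _
    rw [spa_rinv hφ, mul_assoc]
  rw [h3, h2] at h1
  exact (smul_right_injective V (spa_sq_ne hφ) h1).symm

theorem spa_conv {φ : SL(2, R) → ℝ} {w : SL(2, R) → V} (hw : YS φ w)
    (y : SL(2, R)) : ∑ z : SL(2, R), φ (z * y⁻¹) • w z = sq φ • w y := by
  rw [spa_YS_iff] at hw
  rw [← hw y, ← spa_sum_mulr (fun z => φ (z * y⁻¹) • w z) y]
  apply Finset.sum_congr rfl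
  intro x _
  rw [mul_inv_cancel_right]

theorem spa_conv_inv {φ : SL(2, R) → ℝ} (hφ : Sph R φ) {w : SL(2, R) → V} (hw : YS φ w)
    (y : SL(2, R)) : ∑ z : SL(2, R), φ (y * z⁻¹) • w z = sq φ • w y := by
  rw [← spa_conv hw y]
  apply Finset.sum_congr rfl
  intro z _
  rw [← hφ.inv (z * y⁻¹), mul_inv_rev, inv_inv]

theorem spa_inv_fun {φ : SL(2, R) → ℝ} (hφ : Sph R φ) {w : SL(2, R) → V} (hw : YS φ w)
    (hs : ∀ (u : Rˣ) (y : SL(2, R)), w (sg u y) = w y) (y : SL(2, R)) : w y = φ y • w 1 := by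
  have h1 := spa_conv hw y
  have h2 : ∀ u : Rˣ, ∑ z : SL(2, R), φ (z * sg u y⁻¹) • w z = sq φ • w y := by
    intro u
    rw [← h1, ← spa_sum_sg (fun z => φ (z * sg u y⁻¹) • w z) u]
    apply Finset.sum_congr rfl
    intro z _
    rw [← spa_sg_mul, hφ.sig, hs]
  have h3 : ∑ u : Rˣ, ∑ z : SL(2, R), φ (z * sg u y⁻¹) • w z =
      (Nat.card Rˣ : ℝ) • (sq φ • w y) := by
    rw [Finset.sum_congr rfl (fun u _ => h2 u), Finset.sum_const, Finset.card_univ,
      ← Nat.card_eq_fintype_card, Nat.cast_smul_eq_nsmul]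
  rw [Finset.sum_comm] at h3
  have h4 : ∑ z : SL(2, R), ∑ u : Rˣ, φ (z * sg u y⁻¹) • w z =
      (Nat.card Rˣ : ℝ) • (sq φ • (φ y • w 1)) := by
    have h5 := (spa_YS_iff φ w).1 hw 1
    simp only [mul_one] at h5
    rw [smul_comm (sq φ) (φ y), ← h5, Finset.smul_sum, Finset.smul_sum]
    apply Finset.sum_congr rfl
    intro z _
    rw [← Finset.sum_smul, spa_sph hφ, hφ.inv, smul_smul, smul_smul]
    congr 1
    ring
  rw [h4] at h3
  have h6 := smul_right_injective V (ne_of_gt (spa_card_pos (R := R))) h3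
  exact (smul_right_injective V (spa_sq_ne hφ) h6).symm

end sums

theorem st_SPA : ST_SPA := by
  intro R _ _ φ hφ
  classical
  have : Finite SL(2, R) := spa_finite
  have : Fintype SL(2, R) := Fintype.ofFinite _
  have : Fintype Rˣ := Fintype.ofFinite _
  refine ⟨fun u g => spa_rinv hφ u g, spa_abs_le hφ, spa_one_le hφ, spa_le_card hφ,
    spa_YS_self hφ, ?_⟩
  intro V _ _ w hw
  refine ⟨fun h => spa_YS_right hw h, fun u => spa_YS_sg hφ hw u, fun u y => spa_left hφ hw u y,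
    ?_, ?_, fun hs y => spa_inv_fun hφ hw hs y⟩
  · intro u y
    rw [spa_sg_sq, mul_assoc]
    exact spa_left hφ hw u _
  · intro y
    rw [finsum_eq_sum_of_fintype]
    exact spa_conv_inv hφ hw y

end Pool.Agent.Helper96.ME
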